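import Pool.Agent.H74.LGInf

/-!
# Varieties of lattice-ordered groups with the amalgamation property are abelian

Varieties are given by sets of equations, in an arbitrary universe.
-/

set_option autoImplicit false

universe u v w

namespace Pool.Agent.Results.MP_5598bf_al.AmalgamationAbelian

/-- Terms of the signature of lattice-ordered groups, with variables in `X`. -/
inductive Term (X : Type) : Type
  | var : X → Term X
  | one : Term X
  | inv : Term X → Term X
  | mul : Term X → Term X → Term X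
  | inf : Term X → Term X → Term X
  | sup : Term X → Term X → Term X

/-- Value of a term at an assignment of the variables. -/
def Term.eval {X : Type} {G : Type u} [Group G] [Lattice G] (a : X → G) : Term X → G
  | .var x => a x
  | .one => 1
  | .inv s => (s.eval a)⁻¹
  | .mul s t => s.eval a * t.eval a
  | .inf s t => s.eval a ⊓ t.eval a
  | .sup s t => s.eval a ⊔ t.eval a

/-- `G` is a lattice-ordered group in which all equations of `E` hold. -/
def Models (E : Set (Term ℕ × Term ℕ)) (G : Type u) [Group G] [Lattice G] : Prop :=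
  (∀ a b x y : G, x ≤ y → a * x * b ≤ a * y * b) ∧
    ∀ e ∈ E, ∀ a : ℕ → G, e.1.eval a = e.2.eval a

/-- Embeddings: injective maps preserving products, meets and joins. -/
def Emb {G : Type u} {H : Type v} [Group G] [Lattice G] [Group H] [Lattice H] (f : G → H) :
    Prop :=
  Function.Injective f ∧ (∀ x y, f (x * y) = f x * f y) ∧ (∀ x y, f (x ⊓ y) = f x ⊓ f y) ∧
    ∀ x y, f (x ⊔ y) = f x ⊔ f y

/-- The variety defined by the equations `E`, considered in the universe `u`, has the
amalgamation property. -/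
def Amalgamation (E : Set (Term ℕ × Term ℕ)) : Prop :=
  ∀ (A B C : Type u) [Group A] [Lattice A] [Group B] [Lattice B] [Group C] [Lattice C]
    (f : A → B) (g : A → C), Models E A → Models E B → Models E C → Emb f → Emb g →
    ∃ (D : Type u) (_ : Group D) (_ : Lattice D), Models E D ∧
      ∃ (h : B → D) (k : C → D), Emb h ∧ Emb k ∧ ∀ a, h (f a) = k (g a)

private theorem hom_one {G : Type u} {H : Type v} [Group G] [Group H] {f : G → H}
    (hf : ∀ x y, f (x * y) = f x * f y) : f 1 = 1 := by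
  have h := hf 1 1
  rw [mul_one] at h
  exact (mul_eq_left.mp h.symm)

private theorem hom_inv {G : Type u} {H : Type v} [Group G] [Group H] {f : G → H}
    (hf : ∀ x y, f (x * y) = f x * f y) (x : G) : f x⁻¹ = (f x)⁻¹ := by
  apply eq_inv_of_mul_eq_one_left
  rw [← hf, inv_mul_cancel, hom_one hf]

private theorem eval_hom {X : Type} {G : Type u} {H : Type v} [Group G] [Lattice G] [Group H]
    [Lattice H] {f : G → H} (h1 : ∀ x y, f (x * y) = f x * f y)
    (h2 : ∀ x y, f (x ⊓ y) = f x ⊓ f y) (h3 : ∀ x y, f (x ⊔ y) = f x ⊔ f y) (a : X → G)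
    (t : Term X) : f (t.eval a) = t.eval (fun x => f (a x)) := by
  induction t with
  | var x => rfl
  | one => exact hom_one h1
  | inv s ih => simp only [Term.eval, hom_inv h1, ih]
  | mul s t ihs iht => simp only [Term.eval, h1, ihs, iht]
  | inf s t ihs iht => simp only [Term.eval, h2, ihs, iht]
  | sup s t ihs iht => simp only [Term.eval, h3, ihs, iht]

private theorem emb_le {G : Type u} {H : Type v} [Group G] [Lattice G] [Group H] [Lattice H]
    {f : G → H} (hf : Emb f) {x y : G} : f x ≤ f y ↔ x ≤ y := by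
  rw [← sup_eq_right, ← sup_eq_right, ← hf.2.2.2]
  exact hf.1.eq_iff

private theorem models_sub {E : Set (Term ℕ × Term ℕ)} {G : Type u} {H : Type v} [Group G]
    [Lattice G] [Group H] [Lattice H] {f : G → H} (hf : Emb f) (hH : Models E H) :
    Models E G := by
  refine ⟨fun a b x y hxy => ?_, fun e he a => ?_⟩
  · rw [← emb_le hf, hf.2.1, hf.2.1, hf.2.1, hf.2.1]
    exact hH.1 _ _ _ _ ((emb_le hf).2 hxy)
  · apply hf.1
    rw [eval_hom hf.2.1 hf.2.2.1 hf.2.2.2, eval_hom hf.2.1 hf.2.2.1 hf.2.2.2]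
    exact hH.2 e he _

private theorem models_quo {E : Set (Term ℕ × Term ℕ)} {G : Type u} {H : Type v} [Group G]
    [Lattice G] [Group H] [Lattice H] {f : G → H} (h1 : ∀ x y, f (x * y) = f x * f y)
    (h2 : ∀ x y, f (x ⊓ y) = f x ⊓ f y) (h3 : ∀ x y, f (x ⊔ y) = f x ⊔ f y)
    (hs : Function.Surjective f) (hG : Models E G) : Models E H := by
  refine ⟨fun a b x y hxy => ?_, fun e he a => ?_⟩
  · obtain ⟨a, rfl⟩ := hs a
    obtain ⟨b, rfl⟩ := hs b
    obtain ⟨x, rfl⟩ := hs x
    obtain ⟨y, rfl⟩ := hs y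
    have e1 : f (x ⊔ y) = f y := by rw [h3]; exact sup_eq_right.2 hxy
    have h4 := hG.1 a b x (x ⊔ y) le_sup_left
    rw [← sup_eq_right] at h4
    have h5 := congrArg f h4
    rw [h3, h1, h1, h1, h1, e1] at h5
    rw [← sup_eq_right]
    exact h5
  · choose c hc using fun n => hs (a n)
    have ha : a = fun n => f (c n) := funext fun n => (hc n).symm
    rw [ha, ← eval_hom h1 h2 h3, ← eval_hom h1 h2 h3, hG.2 e he c]

private theorem models_pi {E : Set (Term ℕ × Term ℕ)} {ι : Type} (A : ι → Type)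
    [∀ i, Group (A i)] [∀ i, Lattice (A i)] (hA : ∀ i, Models E (A i)) :
    Models E (∀ i, A i) := by
  refine ⟨fun a b x y hxy i => (hA i).1 _ _ _ _ (hxy i), fun e he a => ?_⟩
  funext i
  have h := (hA i).2 e he (fun n => a n i)
  have h1 : ∀ t : Term ℕ, t.eval a i = t.eval (fun n => a n i) := fun t =>
    eval_hom (G := ∀ i, A i) (f := fun g => g i) (fun _ _ => rfl) (fun _ _ => rfl)
      (fun _ _ => rfl) a t
  rw [h1, h1]
  exact h

private theorem pull {K : Type w} {G : Type v} [Group G] [Lattice G] (j : K → G)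
    (hj : Function.Injective j) (h1 : ∃ z, j z = 1) (hm : ∀ x y, ∃ z, j z = j x * j y)
    (hi : ∀ x, ∃ z, j z = (j x)⁻¹) (hn : ∀ x y, ∃ z, j z = j x ⊓ j y)
    (hs : ∀ x y, ∃ z, j z = j x ⊔ j y) : ∃ (_ : Group K) (_ : Lattice K), Emb j := by
  choose o ho using h1
  choose m hm using hm
  choose i hi using hi
  choose n hn using hn
  choose s hs using hs
  letI i1 : Mul K := ⟨m⟩
  letI i2 : Inv K := ⟨i⟩
  letI i3 : One K := ⟨o⟩
  have hm' : ∀ x y : K, j (x * y) = j x * j y := hm
  have hi' : ∀ x : K, j x⁻¹ = (j x)⁻¹ := hi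
  have ho' : j (1 : K) = 1 := ho
  letI gr : Group K := Group.ofLeftAxioms
    (fun a b c => hj (by rw [hm', hm', hm', hm', mul_assoc]))
    (fun a => hj (by rw [hm', ho', one_mul]))
    (fun a => hj (by rw [hm', hi', ho', inv_mul_cancel]))
  letI po : PartialOrder K := PartialOrder.lift j hj
  have hle : ∀ x y : K, x ≤ y ↔ j x ≤ j y := fun x y => Iff.rfl
  letI la : Lattice K :=
    { po with
      sup := s
      inf := n
      le_sup_left := fun a b => by rw [hle, hs]; exact le_sup_left
      le_sup_right := fun a b => by rw [hle, hs]; exact le_sup_right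
      sup_le := fun a b c hac hbc => by rw [hle, hs]; exact sup_le hac hbc
      inf_le_left := fun a b => by rw [hle, hn]; exact inf_le_left
      inf_le_right := fun a b => by rw [hle, hn]; exact inf_le_right
      le_inf := fun a b c hab hac => by rw [hle, hn]; exact le_inf hab hac }
  exact ⟨gr, la, hj, hm', hn, hs⟩

private theorem small_sub {G : Type u} [Group G] [Lattice G] {X : Type} (a : X → G) :
    ∃ (H : Type) (_ : Group H) (_ : Lattice H) (j : H → G), Emb j ∧ ∀ x, ∃ z, j z = a x := by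
  let S : Set G := Set.range fun t : Term X => t.eval a
  let e := (equivShrink.{0} S).symm
  let j : Shrink.{0} S → G := fun z => (e z : G)
  have hj : Function.Injective j := fun x y hxy => e.injective (Subtype.ext hxy)
  have hr : ∀ t : Term X, ∃ z, j z = t.eval a := fun t =>
    ⟨e.symm ⟨t.eval a, t, rfl⟩, by simp [j]⟩
  have hr' : ∀ z, ∃ t : Term X, t.eval a = j z := fun z => (e z).2
  obtain ⟨i1, i2, hE⟩ := pull j hj (hr .one)
    (fun x y => by
      obtain ⟨s, hs⟩ := hr' x
      obtain ⟨t, ht⟩ := hr' y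
      rw [← hs, ← ht]
      exact hr (.mul s t))
    (fun x => by
      obtain ⟨s, hs⟩ := hr' x
      rw [← hs]
      exact hr (.inv s))
    (fun x y => by
      obtain ⟨s, hs⟩ := hr' x
      obtain ⟨t, ht⟩ := hr' y
      rw [← hs, ← ht]
      exact hr (.inf s t))
    (fun x y => by
      obtain ⟨s, hs⟩ := hr' x
      obtain ⟨t, ht⟩ := hr' y
      rw [← hs, ← ht]
      exact hr (.sup s t))
  exact ⟨Shrink.{0} S, i1, i2, j, hE, fun x => hr (.var x)⟩

private theorem big_copy (A : Type) [Group A] [Lattice A] :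
    ∃ (A' : Type u) (_ : Group A') (_ : Lattice A') (d : A' → A) (p : A → A'),
      Emb d ∧ Emb p ∧ (∀ x, d (p x) = x) ∧ ∀ x, p (d x) = x := by
  have hs : ∀ y : A, ∃ z : ULift.{u} A, z.down = y := fun y => ⟨ULift.up y, rfl⟩
  obtain ⟨i1, i2, hE⟩ := pull (K := ULift.{u} A) (G := A) ULift.down ULift.down_injective
    (hs _) (fun _ _ => hs _) (fun _ => hs _) (fun _ _ => hs _) (fun _ _ => hs _)
  refine ⟨ULift.{u} A, i1, i2, ULift.down, ULift.up, hE, ⟨ULift.up_injective, ?_, ?_, ?_⟩,
    fun _ => rfl, fun _ => rfl⟩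
  · exact fun x y => hE.1 (by rw [hE.2.1])
  · exact fun x y => hE.1 (by rw [hE.2.2.1])
  · exact fun x y => hE.1 (by rw [hE.2.2.2])

private theorem emb_comp {A : Type u} {B : Type v} {C : Type w} [Group A] [Lattice A] [Group B]
    [Lattice B] [Group C] [Lattice C] {f : A → B} {g : B → C} (hg : Emb g) (hf : Emb f) :
    Emb (fun x => g (f x)) :=
  ⟨fun _ _ h => hf.1 (hg.1 h), fun x y => by simp only [hf.2.1, hg.2.1],
    fun x y => by simp only [hf.2.2.1, hg.2.2.1], fun x y => by simp only [hf.2.2.2, hg.2.2.2]⟩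

private theorem emb_of_comp {A : Type u} {B : Type v} {C : Type w} [Group A] [Lattice A]
    [Group B] [Lattice B] [Group C] [Lattice C] {f : A → B} {g : B → C} {k : A → C}
    (hg : Emb g) (hk : Emb k) (h : ∀ x, g (f x) = k x) : Emb f :=
  ⟨fun x y hxy => hk.1 (by rw [← h, ← h, hxy]),
    fun x y => hg.1 (by rw [h, hk.2.1, hg.2.1, h, h]),
    fun x y => hg.1 (by rw [h, hk.2.2.1, hg.2.2.1, h, h]),
    fun x y => hg.1 (by rw [h, hk.2.2.2, hg.2.2.2, h, h])⟩

private theorem amal_zero {E : Set (Term ℕ × Term ℕ)} (hE : Amalgamation.{u} E) :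
    Amalgamation.{0} E := by
  intro A B C _ _ _ _ _ _ f g hA hB hC hf hg
  obtain ⟨A', _, _, dA, pA, hdA, hpA, hA1, hA2⟩ := big_copy.{u} A
  obtain ⟨B', _, _, dB, pB, hdB, hpB, hB1, hB2⟩ := big_copy.{u} B
  obtain ⟨C', _, _, dC, pC, hdC, hpC, hC1, hC2⟩ := big_copy.{u} C
  obtain ⟨D, _, _, hD, h, k, hh, hk, hhk⟩ := hE A' B' C' (fun x => pB (f (dA x)))
    (fun x => pC (g (dA x))) (models_sub hdA hA) (models_sub hdB hB) (models_sub hdC hC)
    (emb_comp hpB (emb_comp hf hdA)) (emb_comp hpC (emb_comp hg hdA))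
  obtain ⟨H, _, _, j, hj, hr⟩ := small_sub (X := B ⊕ C)
    (Sum.elim (fun b => h (pB b)) (fun c => k (pC c)))
  choose z hz using hr
  have h1 : ∀ b, j (z (Sum.inl b)) = h (pB b) := fun b => hz (Sum.inl b)
  have h2 : ∀ c, j (z (Sum.inr c)) = k (pC c) := fun c => hz (Sum.inr c)
  refine ⟨H, inferInstance, inferInstance, models_sub hj hD, fun b => z (Sum.inl b),
    fun c => z (Sum.inr c), emb_of_comp hj (emb_comp hh hpB) h1,
    emb_of_comp hj (emb_comp hk hpC) h2, fun a => hj.1 ?_⟩
  rw [h1, h2]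
  have h3 := hhk (pA a)
  rw [hA1] at h3
  exact h3

/-- A variety of lattice-ordered groups with the amalgamation property is abelian. -/
theorem result (E : Set (Term ℕ × Term ℕ)) (hE : Amalgamation.{u} E) (G : Type u) [Group G]
    [Lattice G] (hG : Models E G) (a b : G) : a * b = b * a := by
  by_contra hab
  have hE0 := amal_zero hE
  have hV : Pool.Agent.H74.IsVar (fun (α : Type) (_ : Group α) (_ : Lattice α) =>
      Models E α) := by
    refine ⟨?_, ?_, ?_, ?_⟩
    · intro α _ _ hα x y c hxy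
      have h1 := hα.1 c 1 x y hxy
      have h2 := hα.1 1 c x y hxy
      rw [mul_one, mul_one] at h1
      rw [one_mul, one_mul] at h2
      exact ⟨h1, h2⟩
    · intro α β _ _ _ _ f h1 h2 h3 h4 hβ
      exact models_sub ⟨h4, h1, h3, h2⟩ hβ
    · intro α β _ _ _ _ f h1 h2 h3 h4 hα
      exact models_quo h1 h3 h2 h4 hα
    · intro ι A _ _ hA
      exact models_pi A hA
  have hAP : Pool.Agent.H74.AP (fun (α : Type) (_ : Group α) (_ : Lattice α) =>
      Models E α) := by
    intro A B C _ _ _ _ _ _ f g hf hfi hg hgi hA hB hC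
    obtain ⟨D, i1, i2, hD, h, k, hh, hk, hhk⟩ := hE0 A B C f g hA hB hC
      ⟨hfi, map_mul f, hf.2, hf.1⟩ ⟨hgi, map_mul g, hg.2, hg.1⟩
    exact ⟨D, i1, i2, hD, MonoidHom.mk' h hh.2.1, MonoidHom.mk' k hk.2.1,
      ⟨hh.2.2.2, hh.2.2.1⟩, hh.1, ⟨hk.2.2.2, hk.2.2.1⟩, hk.1, hhk⟩
  refine Pool.Agent.H74.main_false hV hAP ?_
  obtain ⟨H, i1, i2, j, hj, hr⟩ := small_sub (X := Bool) (fun x => if x then a else b)
  obtain ⟨x, hx⟩ := hr true
  obtain ⟨y, hy⟩ := hr false
  refine ⟨H, i1, i2, models_sub hj hG, x, y, fun hxy => hab ?_⟩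
  have h1 := congrArg j hxy
  rw [hj.2.1, hj.2.1, hx, hy] at h1
  simpa using h1

end Pool.Agent.Results.MP_5598bf_al.AmalgamationAbelian
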